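import Pool.Agent.H823.HopfOrders

/-!
# Counterexamples to the finite order variant of the Hopf lemma, with every pair of orders `4 ≤ a ≤ b`

For every `n = m + 1 ≥ 2` and all integers `4 ≤ a ≤ b` the polynomials `u = t |y|² + ε t^a` and
`v = (t + t²) |y|² / 2 + ε' t^b`, `ε = a⁻⁴`, `ε' = ε / (2 · 4^a)`, satisfy the conditions 1-5 of the
problem, `v < u` and `v_t > 0` in `Ω`, and `t ↦ u(t, 0)`, `t ↦ v(t, 0)` vanish at `t = 0` to the exact
orders `a` and `b`.  The restriction `a ≤ b` is necessary for conditions 1-5.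
-/

set_option autoImplicit false

namespace Pool.Agent.Results.MP_3d7355_an.AllOrders

open Set

/-- The space `ℝ^m` of the variable `y`; the points of `ℝ^n`, `n = m + 1`, are the pairs `(t, y)`. -/
abbrev Y (m : ℕ) : Type := EuclideanSpace ℝ (Fin m)

/-- `w_t`, the derivative in the variable `t`. -/
noncomputable def dt {m : ℕ} (w : ℝ × Y m → ℝ) (p : ℝ × Y m) : ℝ :=
  deriv (fun s : ℝ => w (s, p.2)) p.1

/-- `w_{y_j}`, the derivative in the variable `y_j`. -/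
noncomputable def dy {m : ℕ} (j : Fin m) (w : ℝ × Y m → ℝ) (p : ℝ × Y m) : ℝ :=
  deriv (fun s : ℝ => w (p.1, p.2 + s • EuclideanSpace.single j (1 : ℝ))) 0

/-- The Laplacian in all `n = m + 1` variables `(t, y)`. -/
noncomputable def lap {m : ℕ} (w : ℝ × Y m → ℝ) (p : ℝ × Y m) : ℝ :=
  dt (dt w) p + ∑ j, dy j (dy j w) p

/-- The domain `Ω = {(t, y) : |y| < 1, 0 < t < 1}`. -/
def Om (m : ℕ) : Set (ℝ × Y m) := {p | ‖p.2‖ < 1 ∧ 0 < p.1 ∧ p.1 < 1}

/-- The function `f` of one variable vanishes at `0` to the exact order `k`. -/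
def HasOrder (f : ℝ → ℝ) (k : ℕ) : Prop :=
  (∀ j < k, iteratedDeriv j f 0 = 0) ∧ iteratedDeriv k f 0 ≠ 0

/-- The function `f` of one variable vanishes to finite order at `0`: it vanishes at `0` and some
derivative of it at `0` is nonzero. -/
def FiniteOrder (f : ℝ → ℝ) : Prop := f 0 = 0 ∧ ∃ k : ℕ, iteratedDeriv k f 0 ≠ 0

/-- The hypotheses of the problem on `u` and `v` (with smoothness even on all of `ℝ^n`). -/
structure Admissible (m : ℕ) (u v : ℝ × Y m → ℝ) : Prop where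
  smooth_u : ContDiff ℝ (⊤ : ℕ∞) u
  smooth_v : ContDiff ℝ (⊤ : ℕ∞) v
  le : ∀ p ∈ Om m, v p ≤ u p
  u_pos : ∀ p ∈ Om m, 0 < u p
  v_pos : ∀ p ∈ Om m, 0 < v p
  ut_pos : ∀ p ∈ Om m, 0 < dt u p
  u_zero : ∀ y : Y m, ‖y‖ < 1 → u (0, y) = 0
  comparison : ∀ (t s : ℝ) (y : Y m), 0 < t → t ≤ s → s < 1 → ‖y‖ < 1 →
    u (t, y) = v (s, y) → lap u (t, y) ≤ lap v (s, y)
  ut_zero : dt u (0, 0) = 0
  finite_u : FiniteOrder fun t => u (t, 0)
  finite_v : FiniteOrder fun t => v (t, 0)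

open Pool.Agent.H823.Hopf (mg mg_contDiff dt_mg lap_mg key_ineq order_pow hasDeriv_pow_one
  hasDeriv_pow_two order_le)

lemma lap_eq {m : ℕ} (w : ℝ × Y m → ℝ) : lap w = Pool.Agent.H823.Hopf.lap w := rfl

lemma dt_eq {m : ℕ} (w : ℝ × Y m → ℝ) : dt w = Pool.Agent.H823.Hopf.dt w := rfl

lemma HasOrder.finite {f : ℝ → ℝ} {k : ℕ} (hk : 0 < k) (h : HasOrder f k) : FiniteOrder f :=
  ⟨by simpa using h.1 0 hk, k, h.2⟩

/-- **Counterexamples with all pairs of orders.**  For every `n = m + 1 ≥ 2` and all `4 ≤ a ≤ b`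
there are `u, v` satisfying all hypotheses of the problem, with `u > v` and `v_t > 0` at every point
of `Ω`, such that `u(t, 0)` and `v(t, 0)` vanish at `t = 0` to the exact orders `a` and `b`. -/
theorem counterexample (m : ℕ) (hm : 1 ≤ m) (a b : ℕ) (ha : 4 ≤ a) (hab : a ≤ b) :
    ∃ u v : ℝ × Y m → ℝ, Admissible m u v ∧ (∀ p ∈ Om m, v p < u p ∧ 0 < dt v p) ∧
      HasOrder (fun t => u (t, 0)) a ∧ HasOrder (fun t => v (t, 0)) b := by
  have hM : (1 : ℝ) ≤ m := by exact_mod_cast hm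
  have ha0 : (0 : ℝ) < a := by
    have : 0 < a := by omega
    exact_mod_cast this
  have hb0 : (0 : ℝ) < b := by
    have : 0 < b := by omega
    exact_mod_cast this
  set ε : ℝ := 1 / (a : ℝ) ^ 4 with hεdef
  have hε : 0 < ε := by positivity
  set ε' : ℝ := ε / 2 / 4 ^ a with hε'def
  have hε' : 0 < ε' := by positivity
  have hεa : ε * (a : ℝ) ^ 4 ≤ 1 := by
    rw [hεdef]
    field_simp
    exact le_rfl
  have hε'' : ε' * 4 ^ a ≤ ε / 2 := by
    rw [hε'def]
    field_simp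
    exact le_rfl
  have hεε' : ε' ≤ ε / 2 := by
    have : (1 : ℝ) ≤ 4 ^ a := one_le_pow₀ (by norm_num)
    nlinarith
  set e : ℝ → ℝ := fun t => ε * t ^ a with he
  set f : ℝ → ℝ := fun t => ε' * t ^ b with hf
  set g : ℝ → ℝ := fun t => t with hg
  set h : ℝ → ℝ := fun t => t / 2 + t ^ 2 / 2 with hh
  have es : ContDiff ℝ (⊤ : ℕ∞) e := by rw [he]; fun_prop
  have fs : ContDiff ℝ (⊤ : ℕ∞) f := by rw [hf]; fun_prop
  have gs : ContDiff ℝ (⊤ : ℕ∞) g := by rw [hg]; fun_prop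
  have hs : ContDiff ℝ (⊤ : ℕ∞) h := by rw [hh]; fun_prop
  have g1 : ∀ t, HasDerivAt g ((fun _ => 1 : ℝ → ℝ) t) t := fun t => hasDerivAt_id t
  have g2 : ∀ t, HasDerivAt (fun _ => 1 : ℝ → ℝ) ((fun _ => 0 : ℝ → ℝ) t) t :=
    fun t => hasDerivAt_const t 1
  have h1 : ∀ t, HasDerivAt h ((fun t => 1 / 2 + t : ℝ → ℝ) t) t := by
    intro t
    refine (((hasDerivAt_id' t).div_const 2).add (((hasDerivAt_id' t).pow 2).div_const 2)).congr_deriv
      ?_
    simp
  have h2 : ∀ t, HasDerivAt (fun t => 1 / 2 + t : ℝ → ℝ) ((fun _ => 1 : ℝ → ℝ) t) t :=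
    fun t => (hasDerivAt_id' t).const_add _
  have e1 := hasDeriv_pow_one ε a
  have e2 := hasDeriv_pow_two ε (k := a) (by omega)
  have f1 := hasDeriv_pow_one ε' b
  have f2 := hasDeriv_pow_two ε' (k := b) (by omega)
  have hU : (fun t : ℝ => mg (m := m) g e (t, 0)) = e := by
    funext t; simp [mg]
  have hV : (fun t : ℝ => mg (m := m) h f (t, 0)) = f := by
    funext t; simp [mg]
  have oU : HasOrder (fun t : ℝ => mg (m := m) g e (t, 0)) a := by
    rw [hU]; exact order_pow hε.ne' a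
  have oV : HasOrder (fun t : ℝ => mg (m := m) h f (t, 0)) b := by
    rw [hV]; exact order_pow hε'.ne' b
  have hlt : ∀ p ∈ Om m, mg h f p < mg (m := m) g e p := by
    rintro ⟨t, y⟩ ⟨hy, ht0, ht1⟩
    simp only [mg, he, hf, hg, hh] at *
    have h5 : t ^ b ≤ t ^ a := pow_le_pow_of_le_one ht0.le ht1.le hab
    have h6 : 0 < t ^ a := by positivity
    have h7 : 0 ≤ (t - t ^ 2) * ‖y‖ ^ 2 := by
      have : 0 ≤ t - t ^ 2 := by nlinarith
      positivity
    have h8 : ε' * t ^ b ≤ ε / 2 * t ^ a := by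
      calc ε' * t ^ b ≤ ε' * t ^ a := mul_le_mul_of_nonneg_left h5 hε'.le
        _ ≤ ε / 2 * t ^ a := mul_le_mul_of_nonneg_right hεε' h6.le
    have h9 : 0 < ε / 2 * t ^ a := by positivity
    nlinarith
  have hvt : ∀ p ∈ Om m, 0 < dt (mg (m := m) h f) p := by
    rintro ⟨t, y⟩ ⟨hy, ht0, ht1⟩
    rw [dt_eq, dt_mg h1 f1]
    simp only [mg] at *
    positivity
  refine ⟨mg g e, mg h f, ⟨mg_contDiff gs es, mg_contDiff hs fs,
    fun p hp => (hlt p hp).le, ?_, ?_, ?_, ?_, ?_, ?_, oU.finite (by omega), oV.finite (by omega)⟩,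
    fun p hp => ⟨hlt p hp, hvt p hp⟩, oU, oV⟩
  · rintro ⟨t, y⟩ ⟨hy, ht0, ht1⟩
    simp only [mg, he, hg] at *
    positivity
  · rintro ⟨t, y⟩ ⟨hy, ht0, ht1⟩
    simp only [mg, hf, hh] at *
    positivity
  · rintro ⟨t, y⟩ ⟨hy, ht0, ht1⟩
    rw [dt_eq, dt_mg g1 e1]
    simp only [mg] at *
    positivity
  · intro y _
    simp only [mg, he, hg]
    rw [zero_pow (by omega)]
    simp
  · intro t s y ht hts hs' hy heq
    rw [lap_eq, lap_eq, lap_mg g1 g2 e1 e2, lap_mg h1 h2 f1 f2]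
    simp only [mg, he, hf, hg, hh] at *
    have key := key_ineq ha hab hM ht hts hs' (X := ‖y‖ ^ 2) (by positivity) hε hεa hε' hε'' heq
    linarith
  · rw [dt_eq, dt_mg g1 e1]
    simp only [mg]
    rw [zero_pow (show a - 1 ≠ 0 by omega)]
    simp

/-- Under the hypotheses of the problem the orders of `u(t, 0)` and `v(t, 0)` satisfy `2 ≤ a ≤ b`. -/
theorem orders_le {m : ℕ} {u v : ℝ × Y m → ℝ} (h : Admissible m u v) {a b : ℕ}
    (ha : HasOrder (fun t => u (t, 0)) a) (hb : HasOrder (fun t => v (t, 0)) b) :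
    2 ≤ a ∧ a ≤ b := by
  constructor
  · by_contra hcon
    push Not at hcon
    have h2 := ha.2
    interval_cases a
    · exact h2 (by simpa using h.u_zero 0 (by simp))
    · apply h2
      rw [iteratedDeriv_one]
      exact h.ut_zero
  · refine order_le (h.smooth_u.comp (by fun_prop)) (h.smooth_v.comp (by fun_prop)) ?_ ha.1 hb.1 hb.2
    intro t ht0 ht1
    have hp : ((t, 0) : ℝ × Y m) ∈ Om m := ⟨by simp, ht0, ht1⟩
    exact ⟨h.v_pos _ hp, h.le _ hp⟩

/-- **The finite order variant of the Hopf lemma fails for all pairs of orders `4 ≤ a ≤ b`.**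
For every `n = m + 1 ≥ 2`, every `a ≥ 4` and every `b`: there are `u, v` satisfying all hypotheses of
the problem, with `u > v` and `v_t > 0` at every point of `Ω`, such that `u(t, 0)` and `v(t, 0)` vanish
at `t = 0` to the exact orders `a` and `b`, if and only if `a ≤ b`. -/
theorem result (m : ℕ) (hm : 1 ≤ m) (a b : ℕ) (ha : 4 ≤ a) :
    (∃ u v : ℝ × Y m → ℝ, Admissible m u v ∧ (∀ p ∈ Om m, v p < u p ∧ 0 < dt v p) ∧
      HasOrder (fun t => u (t, 0)) a ∧ HasOrder (fun t => v (t, 0)) b) ↔ a ≤ b :=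
  ⟨fun ⟨_, _, h, _, hu, hv⟩ => (orders_le h hu hv).2, fun hab => counterexample m hm a b ha hab⟩

end Pool.Agent.Results.MP_3d7355_an.AllOrders
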